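import Pool.Agent.Lib_helper3.FGP.FinalF

/-!
# The Friedlander-Goldston asymptotic for almost all prime moduli, with its second order term
-/

set_option autoImplicit false

namespace Pool.Agent.Results.MP_5dd4bb_nt.PrimeModuliAsymptotic

open Finset ArithmeticFunction

/-- the variance `G(X,Q)` of the problem -/
noncomputable def G (X : ℝ) (Q : ℕ) : ℝ :=
  ∑ a ∈ (Finset.range Q).filter (fun a => Nat.Coprime a Q),
    ((∑ n ∈ (Finset.Icc 1 ⌊X⌋₊).filter (fun n => n ≡ a [MOD Q]), vonMangoldt n)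
      - X / (Nat.totient Q : ℝ)) ^ 2

/-- `P(X,Q) = (ψ_Q(X) - X)^2 / φ(Q)`, the contribution of the principal character to `G(X,Q)`;
`ψ_Q(X)` is the sum of `Λ(n)` over the `n ≤ X` coprime to `Q` -/
noncomputable def P (X : ℝ) (Q : ℕ) : ℝ :=
  ((∑ n ∈ (Finset.Icc 1 ⌊X⌋₊).filter (fun n => Nat.Coprime n Q), vonMangoldt n) - X) ^ 2
    / (Nat.totient Q : ℝ)

/-- the conjectured value `X log Q - C_Q X` of `G(X,Q)` -/
noncomputable def M (X : ℝ) (Q : ℕ) : ℝ :=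
  X * (Real.log Q - (Real.eulerMascheroniConstant + Real.log (2 * Real.pi)
    + ∑ p ∈ Q.primeFactors, Real.log (p : ℝ) / ((p : ℝ) - 1)))

/-- the primes `Q` with `Y < Q ≤ 2Y` -/
noncomputable def R (Y : ℝ) : Finset ℕ :=
  (Finset.Icc 1 ⌊2 * Y⌋₊).filter (fun Q : ℕ => Q.Prime ∧ Y < Q)

/-- There are an unbounded set `S` of integers (the large levels without exceptional zero) and
absolute constants `c, C > 0`, `B ≥ 1` with the following properties. All sums are over the primes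
`Q` with `Y < Q ≤ 2Y`.
(1) Let `D ∈ S`, `D^B ≤ X ≤ exp (D^c)` and `X D^(-c) ≤ Y ≤ X/2`. Then
`∑ max (0, |G - P - (X log Q - C_Q X)| - C X (Y/X)^(1/4))` is at most
`C (exp (-c log X / log D) + D^(-c)) log X · X Y / log Y`.
(2) For every `ε > 0` there is `C₁` and for every `η > 0` there is `X₁` such that for all `X ≥ X₁` and
`X^(1/2+ε) ≤ Y ≤ X`: `∑ |G - P - X log Q|` is at most `(C₁ log (X/Y) + η log X) X Y / log Y`.
In (1) and (2), nothing has to be removed if `X` is an integer with `|ψ(X) - X| ≤ X^(3/4)`: then they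
hold without the term `P`.
(3) Every interval `[x, x^40]`, `x ≥ X₀`, contains such an integer `X`. -/
theorem result :
    ∃ S : Set ℕ, ¬ BddAbove S ∧ ∃ c C B : ℝ, 0 < c ∧ 0 < C ∧ 1 ≤ B ∧
    ((∀ D ∈ S, ∀ X Y : ℝ, (D : ℝ) ^ B ≤ X → X ≤ Real.exp ((D : ℝ) ^ c) →
        X * (D : ℝ) ^ (-c) ≤ Y → Y ≤ X / 2 →
        ∑ Q ∈ R Y, max 0 (|G X Q - P X Q - M X Q| - C * X * (Y / X) ^ (1 / 4 : ℝ)) ≤
          C * (Real.exp (-(c * Real.log X / Real.log D)) + (D : ℝ) ^ (-c)) * Real.log X * X *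
            (Y / Real.log Y)) ∧
      (∀ D ∈ S, ∀ X : ℕ, (D : ℝ) ^ B ≤ X → (X : ℝ) ≤ Real.exp ((D : ℝ) ^ c) →
        |∑ n ∈ Finset.Icc 1 X, vonMangoldt n - X| ≤ (X : ℝ) ^ (3 / 4 : ℝ) →
        ∀ Y : ℝ, X * (D : ℝ) ^ (-c) ≤ Y → Y ≤ X / 2 →
        ∑ Q ∈ R Y, max 0 (|G X Q - M X Q| - C * X * (Y / X) ^ (1 / 4 : ℝ)) ≤
          C * (Real.exp (-(c * Real.log X / Real.log D)) + (D : ℝ) ^ (-c)) * Real.log X * X *
            (Y / Real.log Y))) ∧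
    (∀ ε : ℝ, 0 < ε → ∃ C₁ : ℝ, 0 < C₁ ∧ ∀ η : ℝ, 0 < η → ∃ X₁ : ℝ,
      (∀ X Y : ℝ, X₁ ≤ X → X ^ (1 / 2 + ε) ≤ Y → Y ≤ X →
        ∑ Q ∈ R Y, |G X Q - P X Q - X * Real.log Q| ≤
          (C₁ * Real.log (X / Y) + η * Real.log X) * X * (Y / Real.log Y)) ∧
      (∀ X : ℕ, X₁ ≤ X →
        |∑ n ∈ Finset.Icc 1 X, vonMangoldt n - X| ≤ (X : ℝ) ^ (3 / 4 : ℝ) →
        ∀ Y : ℝ, (X : ℝ) ^ (1 / 2 + ε) ≤ Y → Y ≤ X →
        ∑ Q ∈ R Y, |G X Q - X * Real.log Q| ≤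
          (C₁ * Real.log (X / Y) + η * Real.log X) * X * (Y / Real.log Y))) ∧
    (∃ X₀ : ℝ, ∀ x : ℝ, X₀ ≤ x → ∃ X : ℕ, x ≤ X ∧ (X : ℝ) ≤ x ^ 40 ∧
      |∑ n ∈ Finset.Icc 1 X, vonMangoldt n - X| ≤ (X : ℝ) ^ (3 / 4 : ℝ)) := by
  obtain ⟨S, hS, c, C, B, X₀, hc, hC, hB, h1, h2, h3⟩ := Pool.Agent.FGP.finalE
  exact ⟨S, hS, c, C, B, hc, hC, hB, ⟨h1, h2⟩, Pool.Agent.FGP.range_pr, X₀, h3⟩

end Pool.Agent.Results.MP_5dd4bb_nt.PrimeModuliAsymptotic
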